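import Mathlib
import Pool.Graph.R_seed8.Results.MP_dc9599_co.TwentyOneCircuits

/-!
# Eulerian oriented graphs on `n` vertices that need about `7 n / 10` directed circuits

We glue `m` copies of the 31-vertex graph of the library (which needs 21 circuits) at one vertex.  A
directed circuit of the glued graph stays in one copy, so at least `21 m` circuits are needed on
`30 m + 1` vertices; isolated vertices can be added.
-/

set_option autoImplicit false

namespace Pool.Agent.Results.MP_dc9599_co.SevenTenths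

open Finset

/-! ### Definitions used in the statement -/

section defs
variable {V : Type} [Fintype V] [DecidableEq V]

/-- `A` is the arc set of an oriented graph: no loops and no pair of opposite arcs. -/
def IsOriented (A : Finset (V × V)) : Prop := ∀ u v : V, (u, v) ∈ A → (v, u) ∉ A

/-- every vertex has out-degree equal to in-degree -/
def IsEulerian (A : Finset (V × V)) : Prop :=
  ∀ v : V, (A.filter (fun e => e.1 = v)).card = (A.filter (fun e => e.2 = v)).card

/-- the arcs `c₀c₁, c₁c₂, …, c₍ₖ₋₁₎c₀` of the closed walk through the vertices of the list `c` -/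
def arcsOf {V : Type} (c : List V) : List (V × V) := c.zip (c.rotate 1)

/-- `L` is a decomposition of `A` into directed circuits: every member of `L` is a directed circuit
of `A` (distinct vertices, consecutive ones joined by arcs of `A`, also the last to the first), every
arc of `A` is on a member, and different members of the list have no arc in common. -/
def IsCircuitDecomposition {V : Type} (A : Finset (V × V)) (L : List (List V)) : Prop :=
  (∀ c ∈ L, c.Nodup ∧ 2 ≤ c.length ∧ ∀ e ∈ arcsOf c, e ∈ A) ∧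
  (∀ e ∈ A, ∃ c ∈ L, e ∈ arcsOf c) ∧
  L.Pairwise (fun c d => ∀ e ∈ arcsOf c, e ∉ arcsOf d)

end defs

/-! ### Walks and rotations -/

def arcsFrom {V : Type} (x : V) : List V → V → List (V × V)
  | [], s => [(x, s)]
  | y :: t, s => (x, y) :: arcsFrom y t s

theorem zip_eq {V : Type} (s : V) (t : List V) : ∀ x, (x :: t).zip (t ++ [s]) = arcsFrom x t s := by
  induction t with
  | nil => intro x; simp [arcsFrom]
  | cons y t ih => intro x; simp only [List.cons_append, List.zip_cons_cons, arcsFrom, ← ih y]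

theorem arcsOf_cons {V : Type} (s : V) (t : List V) : arcsOf (s :: t) = arcsFrom s t s := by
  rw [← zip_eq]; simp [arcsOf]

theorem mem_arcs_rot {V : Type} (l1 l2 : List V) (o : V) (e : V × V) :
    e ∈ arcsOf (l1 ++ o :: l2) ↔ e ∈ arcsOf (o :: (l2 ++ l1)) := by
  have hrot : (l1 ++ o :: l2).rotate l1.length = o :: (l2 ++ l1) := by
    rw [List.rotate_append_length_eq]; rfl
  have hz : arcsOf (o :: (l2 ++ l1)) = (arcsOf (l1 ++ o :: l2)).rotate l1.length := by
    unfold arcsOf
    rw [List.zip_eq_zipWith, List.zip_eq_zipWith, List.zipWith_rotate_distrib _ _ _ _ (by simp),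
      List.rotate_rotate, Nat.add_comm, ← List.rotate_rotate, hrot]
  rw [hz, List.mem_rotate]

theorem arcsOf_map {V W : Type} (f : V → W) (c : List V) :
    arcsOf (c.map f) = (arcsOf c).map (Prod.map f f) := by
  unfold arcsOf
  rw [← List.map_rotate, List.zip_map]

theorem exists_arc_of_mem {V : Type} (c : List V) (v : V) (hv : v ∈ c) :
    ∃ w, (v, w) ∈ arcsOf c := by
  obtain ⟨l1, l2, rfl⟩ := List.append_of_mem hv
  cases h : l2 ++ l1 with
  | nil => exact ⟨v, by rw [mem_arcs_rot, h, arcsOf_cons]; simp [arcsFrom]⟩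
  | cons y t => exact ⟨y, by rw [mem_arcs_rot, h, arcsOf_cons]; simp [arcsFrom]⟩

/-! ### Glueing copies at one vertex -/

section glue

variable {V W J : Type} [Fintype V] [DecidableEq V] [Fintype W] [DecidableEq W]
  [Fintype J] [DecidableEq J]
  (φ : J → W → V) (π : V → W) (w0 : W) (o : V) (B : Finset (W × W))

/-- the glued arc set -/
def glue : Finset (V × V) :=
  ((univ : Finset J) ×ˢ B).image (fun p => (φ p.1 p.2.1, φ p.1 p.2.2))

theorem mem_glue (e : V × V) :
    e ∈ glue φ B ↔ ∃ j a b, (a, b) ∈ B ∧ e = (φ j a, φ j b) := by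
  unfold glue
  rw [Finset.mem_image]
  constructor
  · rintro ⟨⟨j, a, b⟩, h, rfl⟩
    exact ⟨j, a, b, (Finset.mem_product.1 h).2, rfl⟩
  · rintro ⟨j, a, b, h, rfl⟩
    exact ⟨⟨j, a, b⟩, Finset.mem_product.2 ⟨mem_univ _, h⟩, rfl⟩

variable (hφ : ∀ j j' w w', φ j w = φ j' w' → w = w' ∧ (j = j' ∨ w = w0))
  (ho : ∀ j, φ j w0 = o) (hπ : ∀ j w, π (φ j w) = w)

include hφ ho in
theorem walk_block (t : List V) : ∀ (x s : V), (∀ e ∈ arcsFrom x t s, e ∈ glue φ B) →
    (∀ y ∈ t, y ≠ o) → ∃ j, ∀ e ∈ arcsFrom x t s, ∃ a b, (a, b) ∈ B ∧ e = (φ j a, φ j b) := by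
  induction t with
  | nil =>
    intro x s h _
    obtain ⟨j, a, b, hab, he⟩ := (mem_glue φ B _).1 (h (x, s) (by simp [arcsFrom]))
    refine ⟨j, ?_⟩
    intro e he'
    simp only [arcsFrom, List.mem_singleton] at he'
    exact ⟨a, b, hab, he'.trans he⟩
  | cons y t ih =>
    intro x s h hy
    obtain ⟨j, hj⟩ := ih y s (fun e he => h e (by simp [arcsFrom, he])) (fun z hz => hy z (by simp [hz]))
    refine ⟨j, ?_⟩
    intro e he
    simp only [arcsFrom, List.mem_cons] at he
    rcases he with rfl | he
    · obtain ⟨j', a, b, hab, he⟩ := (mem_glue φ B _).1 (h (x, y) (by simp [arcsFrom]))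
      -- the next arc starts at `y`
      have hnext : ∃ z, (y, z) ∈ arcsFrom y t s := by
        cases t with
        | nil => exact ⟨s, by simp [arcsFrom]⟩
        | cons z t => exact ⟨z, by simp [arcsFrom]⟩
      obtain ⟨z, hz⟩ := hnext
      obtain ⟨a', b', _, he'⟩ := hj _ hz
      have e1 : y = φ j' b := congrArg Prod.snd he
      have e2 : y = φ j a' := congrArg Prod.fst he'
      obtain ⟨-, h3 | h3⟩ := hφ j' j b a' (e1.symm.trans e2)
      · subst h3; exact ⟨a, b, hab, he⟩
      · exfalso
        apply hy y (by simp)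
        rw [e1, h3, ho]
    · exact hj e he

include hφ ho in
theorem circuit_block (c : List V) (hnd : c.Nodup) (hc : c ≠ [])
    (hA : ∀ e ∈ arcsOf c, e ∈ glue φ B) :
    ∃ j, ∀ e ∈ arcsOf c, ∃ a b, (a, b) ∈ B ∧ e = (φ j a, φ j b) := by
  by_cases h0 : o ∈ c
  · obtain ⟨l1, l2, rfl⟩ := List.append_of_mem h0
    have hnd' : (o :: (l2 ++ l1)).Nodup := by
      have hrot : (l1 ++ o :: l2).rotate l1.length = o :: (l2 ++ l1) := by
        rw [List.rotate_append_length_eq]; rfl
      rw [← hrot, List.nodup_rotate]; exact hnd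
    rw [List.nodup_cons] at hnd'
    obtain ⟨j, hj⟩ := walk_block φ w0 o B hφ ho (l2 ++ l1) o o
      (fun e he => hA e ((mem_arcs_rot _ _ _ _).2 (by rw [arcsOf_cons]; exact he)))
      (fun y hy h => hnd'.1 (h ▸ hy))
    refine ⟨j, fun e he => hj e ?_⟩
    rw [← arcsOf_cons]
    exact (mem_arcs_rot _ _ _ _).1 he
  · cases c with
    | nil => exact absurd rfl hc
    | cons s t =>
      rw [arcsOf_cons] at hA ⊢
      exact walk_block φ w0 o B hφ ho t s s hA (fun y hy h => h0 (by rw [← h]; simp [hy]))

theorem sum_filter_length {α : Type} (L : List α) (f : α → J) :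
    ∑ j, (L.filter (fun c => decide (f c = j))).length = L.length := by
  induction L with
  | nil => simp
  | cons a L ih =>
    have : ∀ j, ((a :: L).filter (fun c => decide (f c = j))).length =
        (if f a = j then 1 else 0) + (L.filter (fun c => decide (f c = j))).length := by
      intro j
      rw [List.filter_cons]
      by_cases h : f a = j
      · simp [h]; omega
      · simp [h]
    simp only [this, Finset.sum_add_distrib, ih, List.length_cons]
    simp; omega

include hφ ho hπ in
theorem glue_lower [Nonempty J] (k : ℕ) (hor : IsOriented B)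
    (hB : ∀ L : List (List W), IsCircuitDecomposition B L → k ≤ L.length)
    (L : List (List V)) (hL : IsCircuitDecomposition (glue φ B) L) :
    Fintype.card J * k ≤ L.length := by
  classical
  obtain ⟨h1, h2, h3⟩ := hL
  have hloop : ∀ w, (w, w) ∉ B := fun w hw => hor w w hw hw
  -- the block of a circuit
  have hblk : ∀ c, ∃ j, c ∈ L → ∀ e ∈ arcsOf c, ∃ a b, (a, b) ∈ B ∧ e = (φ j a, φ j b) := by
    intro c
    by_cases hc : c ∈ L
    · obtain ⟨hn, hl, ha⟩ := h1 c hc
      obtain ⟨j, hj⟩ := circuit_block φ w0 o B hφ ho c hn (by rintro rfl; simp at hl) ha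
      exact ⟨j, fun _ => hj⟩
    · exact ⟨Classical.arbitrary J, fun h => absurd h hc⟩
  choose f hf using hblk
  rw [← sum_filter_length L f]
  calc Fintype.card J * k = ∑ _j : J, k := by simp
    _ ≤ _ := Finset.sum_le_sum fun j _ => ?_
  have hlen : (L.filter (fun c => decide (f c = j))).length =
      ((L.filter (fun c => decide (f c = j))).map (List.map π)).length := by simp
  rw [hlen]
  have hmemF : ∀ c, c ∈ L.filter (fun c => decide (f c = j)) ↔ c ∈ L ∧ f c = j := by
    intro c; rw [List.mem_filter]; simp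
  -- arcs of a circuit of block `j`
  have harc : ∀ c ∈ L, f c = j → ∀ e ∈ arcsOf c, (π e.1, π e.2) ∈ B ∧
      e = (φ j (π e.1), φ j (π e.2)) := by
    intro c hc hfc e he
    obtain ⟨a, b, hab, rfl⟩ := hf c hc e he
    rw [hfc]
    simp only [hπ]
    exact ⟨hab, trivial⟩
  apply hB
  refine ⟨?_, ?_, ?_⟩
  · intro d hd
    obtain ⟨c, hc, rfl⟩ := List.mem_map.1 hd
    obtain ⟨hcL, hfc⟩ := (hmemF c).1 hc
    obtain ⟨hn, hl, ha⟩ := h1 c hcL
    refine ⟨?_, by simpa using hl, ?_⟩
    · apply List.Nodup.of_map (φ j)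
      rw [List.map_map]
      have : c.map (φ j ∘ π) = c := by
        conv_rhs => rw [← List.map_id c]
        apply List.map_congr_left
        intro v hv
        obtain ⟨w, hw⟩ := exists_arc_of_mem c v hv
        have := (harc c hcL hfc _ hw).2
        exact (congrArg Prod.fst this).symm
      rw [this]; exact hn
    · intro e he
      rw [arcsOf_map, List.mem_map] at he
      obtain ⟨e', he', rfl⟩ := he
      exact (harc c hcL hfc e' he').1
  · rintro ⟨a, b⟩ hab
    obtain ⟨c, hcL, hec⟩ := h2 (φ j a, φ j b) ((mem_glue φ B _).2 ⟨j, a, b, hab, rfl⟩)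
    have hfc : f c = j := by
      obtain ⟨a', b', hab', he⟩ := hf c hcL _ hec
      have e1 := congrArg Prod.fst he
      have e2 := congrArg Prod.snd he
      obtain ⟨-, h4⟩ := hφ _ _ _ _ e1
      obtain ⟨-, h5⟩ := hφ _ _ _ _ e2
      rcases h4 with h4 | h4
      · exact h4.symm
      rcases h5 with h5 | h5
      · exact h5.symm
      · rw [h4, h5] at hab
        exact absurd hab (hloop _)
    refine ⟨c.map π, List.mem_map.2 ⟨c, (hmemF c).2 ⟨hcL, hfc⟩, rfl⟩, ?_⟩
    rw [arcsOf_map, List.mem_map]
    exact ⟨_, hec, by simp [hπ]⟩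
  · rw [List.pairwise_map]
    have hp := h3.sublist (List.filter_sublist (p := fun c => decide (f c = j)))
    refine List.Pairwise.imp_of_mem ?_ hp
    intro c d hc hd hcd e he he'
    obtain ⟨hcL, hfc⟩ := (hmemF c).1 hc
    obtain ⟨hdL, hfd⟩ := (hmemF d).1 hd
    rw [arcsOf_map, List.mem_map] at he he'
    obtain ⟨e1, he1, rfl⟩ := he
    obtain ⟨e2, he2, h12⟩ := he'
    have q1 := (harc c hcL hfc e1 he1).2
    have q2 := (harc d hdL hfd e2 he2).2
    have : e1 = e2 := by
      rw [q1, q2]
      have r1 := congrArg Prod.fst h12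
      have r2 := congrArg Prod.snd h12
      simp only [Prod.map_fst, Prod.map_snd] at r1 r2
      rw [r1, r2]
    exact hcd e1 he1 (this ▸ he2)

include hφ in
theorem glue_inj (hor : IsOriented B) :
    Set.InjOn (fun p : J × (W × W) => (φ p.1 p.2.1, φ p.1 p.2.2))
      (((univ : Finset J) ×ˢ B : Finset (J × (W × W))) : Set (J × (W × W))) := by
  rintro ⟨j, a, b⟩ h1 ⟨j', a', b'⟩ h2 h
  simp only [Finset.coe_product, Set.mem_prod, Finset.mem_coe] at h1 h2
  have e1 := congrArg Prod.fst h
  have e2 := congrArg Prod.snd h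
  simp only at e1 e2
  obtain ⟨r1, s1⟩ := hφ _ _ _ _ e1
  obtain ⟨r2, s2⟩ := hφ _ _ _ _ e2
  subst r1; subst r2
  rcases s1 with s1 | s1
  · rw [s1]
  rcases s2 with s2 | s2
  · rw [s2]
  · rw [s1, s2] at h1
    exact absurd h1.2 (fun hw => hor w0 w0 hw hw)

include hφ in
theorem glue_oriented (hor : IsOriented B) : IsOriented (glue φ B) := by
  intro u v h h'
  obtain ⟨j, a, b, hab, he⟩ := (mem_glue φ B _).1 h
  obtain ⟨j', a', b', hab', he'⟩ := (mem_glue φ B _).1 h'
  have e1 := congrArg Prod.fst he
  have e2 := congrArg Prod.snd he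
  have e3 := congrArg Prod.fst he'
  have e4 := congrArg Prod.snd he'
  simp only at e1 e2 e3 e4
  obtain ⟨r1, -⟩ := hφ _ _ _ _ (e1.symm.trans e4)
  obtain ⟨r2, -⟩ := hφ _ _ _ _ (e2.symm.trans e3)
  subst r1; subst r2
  exact hor a b hab hab'

include hφ in
theorem glue_eulerian (hor : IsOriented B) (he : IsEulerian B) : IsEulerian (glue φ B) := by
  classical
  intro v
  have key : ∀ g : V × V → V, ((glue φ B).filter (fun e => g e = v)).card =
      ∑ j, (B.filter (fun e => g (φ j e.1, φ j e.2) = v)).card := by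
    intro g
    unfold glue
    rw [Finset.filter_image, Finset.card_image_of_injOn]
    · rw [Finset.card_filter, Finset.sum_product]
      apply Finset.sum_congr rfl
      intro j _
      rw [Finset.card_filter]
    · exact (glue_inj φ w0 B hφ hor).mono (by
        intro x hx
        exact Finset.mem_coe.2 (Finset.mem_filter.1 (Finset.mem_coe.1 hx)).1)
  rw [key Prod.fst, key Prod.snd]
  apply Finset.sum_congr rfl
  intro j _
  simp only
  by_cases h : ∃ w, φ j w = v
  · obtain ⟨w, rfl⟩ := h
    have hinj : ∀ a, φ j a = φ j w ↔ a = w := fun a => ⟨fun h => (hφ _ _ _ _ h).1, fun h => by rw [h]⟩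
    simp only [hinj]
    exact he w
  · push Not at h
    simp [h]

end glue

/-- the vertex set: a hub, `m` copies of the other 30 vertices, and `r` isolated vertices -/
abbrev Vm (m r : ℕ) : Type := Option (Fin m × Fin 30) ⊕ Fin r

def ph (m r : ℕ) (j : Fin m) (w : Fin 31) : Vm m r :=
  Fin.cases (motive := fun _ => Vm m r) (Sum.inl none) (fun i => Sum.inl (some (j, i))) w

def pr (m r : ℕ) : Vm m r → Fin 31
  | Sum.inl none => 0
  | Sum.inl (some (_, i)) => i.succ
  | Sum.inr _ => 0

theorem ph_inj (m r : ℕ) (j j' : Fin m) (w w' : Fin 31) (h : ph m r j w = ph m r j' w') :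
    w = w' ∧ (j = j' ∨ w = 0) := by
  revert h
  refine Fin.cases ?_ (fun i => ?_) w <;> refine Fin.cases ?_ (fun i' => ?_) w'
  · intro _; exact ⟨rfl, Or.inr rfl⟩
  · intro h; simp [ph] at h
  · intro h; simp [ph] at h
  · intro h
    simp only [ph, Fin.cases_succ, Sum.inl.injEq, Option.some.injEq, Prod.mk.injEq] at h
    exact ⟨by rw [h.2], Or.inl h.1⟩

theorem pr_ph (m r : ℕ) (j : Fin m) (w : Fin 31) : pr m r (ph m r j w) = w := by
  refine Fin.cases ?_ (fun i => ?_) w
  · simp [ph, pr]
  · simp [ph, pr]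

/-- For all `m ≥ 1` and `r` there is an eulerian oriented graph on `30 m + 1 + r` vertices every
decomposition of which into directed circuits has at least `21 m` members.  Consequently for every
`n ≥ 660` there is an eulerian oriented graph on `n` vertices that has no decomposition into at most
`2 n / 3` directed circuits, and for every `c < 7 / 10` there are, for all large `n`, eulerian
oriented graphs on `n` vertices all of whose decompositions have more than `c n` members. -/
theorem result :
    (∀ m r : ℕ, 1 ≤ m → ∃ (V : Type) (_ : Fintype V) (_ : DecidableEq V) (A : Finset (V × V)),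
      Fintype.card V = 30 * m + 1 + r ∧ IsOriented A ∧ IsEulerian A ∧
      ∀ L : List (List V), IsCircuitDecomposition A L → 21 * m ≤ L.length) ∧
    (∀ n : ℕ, 660 ≤ n → ∃ (V : Type) (_ : Fintype V) (_ : DecidableEq V) (A : Finset (V × V)),
      Fintype.card V = n ∧ IsOriented A ∧ IsEulerian A ∧
      ∀ L : List (List V), IsCircuitDecomposition A L → 2 * n < 3 * L.length) ∧
    (∀ c : ℝ, c < 7 / 10 → ∃ N : ℕ, ∀ n : ℕ, N ≤ n →
      ∃ (V : Type) (_ : Fintype V) (_ : DecidableEq V) (A : Finset (V × V)),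
        Fintype.card V = n ∧ IsOriented A ∧ IsEulerian A ∧
        ∀ L : List (List V), IsCircuitDecomposition A L → c * n < L.length) := by
  have main : ∀ m r : ℕ, 1 ≤ m → ∃ (V : Type) (_ : Fintype V) (_ : DecidableEq V)
      (A : Finset (V × V)),
      Fintype.card V = 30 * m + 1 + r ∧ IsOriented A ∧ IsEulerian A ∧
      ∀ L : List (List V), IsCircuitDecomposition A L → 21 * m ≤ L.length := by
    intro m r hm
    obtain ⟨B, h1, h2, h3⟩ := TwentyOneCircuits.result
    have : Nonempty (Fin m) := ⟨⟨0, hm⟩⟩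
    refine ⟨Vm m r, inferInstance, inferInstance, glue (ph m r) B, ?_, ?_, ?_, ?_⟩
    · simp; omega
    · exact glue_oriented _ 0 B (ph_inj m r) h1
    · exact glue_eulerian _ 0 B (ph_inj m r) h1 h2
    · intro L hL
      have := glue_lower (ph m r) (pr m r) 0 (Sum.inl none) B (ph_inj m r) (fun j => rfl)
        (pr_ph m r) 21 h1 h3 L hL
      simpa [mul_comm] using this
  refine ⟨main, ?_, ?_⟩
  · intro n hn
    obtain ⟨V, i1, i2, A, hc, h1, h2, h3⟩ := main ((n - 1) / 30) ((n - 1) % 30) (by omega)
    refine ⟨V, i1, i2, A, by omega, h1, h2, fun L hL => ?_⟩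
    have := h3 L hL
    omega
  · intro c hc
    obtain ⟨N, hN⟩ := exists_nat_gt (21 / (7 / 10 - c))
    refine ⟨N + 31, fun n hn => ?_⟩
    obtain ⟨V, i1, i2, A, hcard, h1, h2, h3⟩ := main ((n - 1) / 30) ((n - 1) % 30) (by omega)
    refine ⟨V, i1, i2, A, by omega, h1, h2, fun L hL => ?_⟩
    have h4 := h3 L hL
    have h5 : 7 * n ≤ 10 * L.length + 7 * 30 := by omega
    have h6 : (7 : ℝ) * n ≤ 10 * L.length + 7 * 30 := by exact_mod_cast h5
    have hpos : 0 < 7 / 10 - c := by linarith
    have h7 : 21 < (N : ℝ) * (7 / 10 - c) := by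
      rw [div_lt_iff₀ hpos] at hN; exact hN
    have h8 : (N : ℝ) ≤ n := by exact_mod_cast (by omega : N ≤ n)
    nlinarith [mul_le_mul_of_nonneg_right h8 hpos.le]

end Pool.Agent.Results.MP_dc9599_co.SevenTenths
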